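import Mathlib
import Pool.Agent.X189.BS.Stm

/-! Part E2 of project BS (MP_4f027a_co). -/

namespace Pool.Agent.X327.BS

open Pool.Agent.X189.BS

variable {n : ℕ}

abbrev Ed (n : ℕ) : Type := Fin (n + 1) × Fin (n + 1)

def pos (L : List (Ed n)) (e : Ed n) : ℕ := L.idxOf e

theorem pos_lt {L : List (Ed n)} {e : Ed n} : pos L e < L.length ↔ e ∈ L := List.idxOf_lt_length_iff

theorem pos_le (L : List (Ed n)) (e : Ed n) : pos L e ≤ L.length := List.idxOf_le_length

theorem pos_not {L : List (Ed n)} {e : Ed n} (h : e ∉ L) : pos L e = L.length :=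
  le_antisymm (pos_le L e) (not_lt.1 fun h' => h (pos_lt.1 h'))

theorem mem_of_pos {L : List (Ed n)} {e f : Ed n} (h : pos L e < pos L f) : e ∈ L :=
  pos_lt.1 (lt_of_lt_of_le h (pos_le L f))

theorem pos_inj {L : List (Ed n)} {e f : Ed n} (he : e ∈ L) (h : pos L e = pos L f) : e = f :=
  (List.idxOf_inj he).1 h

theorem pos_cons_self (e : Ed n) (L : List (Ed n)) : pos (e :: L) e = 0 := List.idxOf_cons_self

theorem pos_cons_ne {e f : Ed n} (L : List (Ed n)) (h : e ≠ f) : pos (e :: L) f = pos L f + 1 :=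
  List.idxOf_cons_ne _ h

theorem pos_filter (p : Ed n → Bool) (L : List (Ed n)) (e f : Ed n) (pe : p e = true) (pf : p f = true) :
    pos (L.filter p) e < pos (L.filter p) f ↔ pos L e < pos L f := by
  induction L with
  | nil => simp [pos]
  | cons g T ih =>
    by_cases hge : g = e
    · subst hge
      rw [List.filter_cons_of_pos pe, pos_cons_self, pos_cons_self]
      by_cases hgf : g = f
      · subst hgf
        rw [pos_cons_self, pos_cons_self]
      · rw [pos_cons_ne _ hgf, pos_cons_ne _ hgf]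
        omega
    · by_cases hgf : g = f
      · subst hgf
        rw [List.filter_cons_of_pos pf, pos_cons_self, pos_cons_self]
        omega
      · rw [pos_cons_ne _ hge, pos_cons_ne _ hgf]
        by_cases hg : p g = true
        · rw [List.filter_cons_of_pos hg, pos_cons_ne _ hge, pos_cons_ne _ hgf]
          omega
        · rw [List.filter_cons_of_neg hg]
          omega

theorem pos_mid {P S : List (Ed n)} {e : Ed n} (h : e ∉ P) : pos (P ++ e :: S) e = P.length := by
  unfold pos
  rw [List.idxOf_append_of_notMem h, List.idxOf_cons_self]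
  rfl

theorem mem_prefix {P S : List (Ed n)} {e f : Ed n} (h : e ∉ P) :
    pos (P ++ e :: S) f < pos (P ++ e :: S) e ↔ f ∈ P := by
  rw [pos_mid h]
  by_cases hf : f ∈ P
  · unfold pos
    rw [List.idxOf_append_of_mem hf]
    exact ⟨fun _ => hf, fun _ => List.idxOf_lt_length_iff.2 hf⟩
  · unfold pos
    rw [List.idxOf_append_of_notMem hf]
    constructor
    · intro h'
      omega
    · intro h'
      exact absurd h' hf

/-- the conditions at the crossing `e`; `R g` says that `g` comes before -/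
def VC (a c : Fin (n + 1)) (R : Ed n → Prop) (e : Ed n) : Prop :=
  a ≤ e.1 ∧ e.1 < e.2 ∧ e.2 ≤ c ∧
    (∀ z, e.2 < z → z ≤ c → (R (e.2, z) ↔ R (e.1, z))) ∧
    (∀ z, a ≤ z → z < e.1 → (R (z, e.1) ↔ R (z, e.2))) ∧
    (∀ z, e.1 < z → z < e.2 → (R (e.1, z) ↔ ¬ R (z, e.2)))

theorem VC_congr {a c : Fin (n + 1)} {R R' : Ed n → Prop} {e : Ed n}
    (h : ∀ g : Ed n, (g.1 = e.1 ∨ g.2 = e.1) ∨ (g.1 = e.2 ∨ g.2 = e.2) → (R g ↔ R' g)) (hv : VC a c R e) :
    VC a c R' e := by
  obtain ⟨h1, h2, h3, h4, h5, h6⟩ := hv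
  refine ⟨h1, h2, h3, fun z hz hz' => ?_, fun z hz hz' => ?_, fun z hz hz' => ?_⟩
  · rw [← h (e.2, z) (by simp), ← h (e.1, z) (by simp)]
    exact h4 z hz hz'
  · rw [← h (z, e.1) (by simp), ← h (z, e.2) (by simp)]
    exact h5 z hz hz'
  · rw [← h (e.1, z) (by simp), ← h (z, e.2) (by simp)]
    exact h6 z hz hz'

theorem val_nodup_aux : ∀ L : List (Ed n), (∀ P e S, L = P ++ e :: S → e ∉ P) → L.Nodup := by
  intro L
  induction L using List.reverseRecOn with
  | nil => intro _; exact List.nodup_nil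
  | append_singleton l x ih =>
    intro h
    have h1 : l.Nodup := ih fun P e S hl => h P e (S ++ [x]) (by rw [hl]; simp)
    have h2 : x ∉ l := h l x [] rfl
    rw [List.nodup_append]
    refine ⟨h1, List.nodup_singleton x, ?_⟩
    intro y hy z hz hyz
    rw [List.mem_singleton] at hz
    subst hz
    subst hyz
    exact h2 hy

theorem val_iff {a c : Fin (n + 1)} {L : List (Ed n)} :
    Val a c L ↔ L.Nodup ∧ ∀ e ∈ L, VC a c (fun g => pos L g < pos L e) e := by
  constructor
  · intro h
    refine ⟨val_nodup_aux L fun P e S hl => (h P e S hl).2.2.2.1, fun e he => ?_⟩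
    obtain ⟨P, S, hL⟩ := List.append_of_mem he
    obtain ⟨h1, h2, h3, h4, h5, h6, h7⟩ := h P e S hL
    subst hL
    refine ⟨h1, h2, h3, ?_, ?_, ?_⟩
    · intro z hz hz'
      beta_reduce
      rw [mem_prefix h4, mem_prefix h4]
      exact h5 z hz hz'
    · intro z hz hz'
      beta_reduce
      rw [mem_prefix h4, mem_prefix h4]
      exact h6 z hz hz'
    · intro z hz hz'
      beta_reduce
      rw [mem_prefix h4, mem_prefix h4]
      exact h7 z hz hz'
  · rintro ⟨hnd, h⟩ P e S hL
    subst hL
    have h4 : e ∉ P := by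
      intro hP
      rw [List.nodup_append] at hnd
      exact hnd.2.2 e hP e (by simp) rfl
    obtain ⟨h1, h2, h3, h5, h6, h7⟩ := h e (by simp)
    refine ⟨h1, h2, h3, h4, ?_, ?_, ?_⟩
    · intro z hz hz'
      have := h5 z hz hz'
      beta_reduce at this
      rwa [mem_prefix h4, mem_prefix h4] at this
    · intro z hz hz'
      have := h6 z hz hz'
      beta_reduce at this
      rwa [mem_prefix h4, mem_prefix h4] at this
    · intro z hz hz'
      have := h7 z hz hz'
      beta_reduce at this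
      rwa [mem_prefix h4, mem_prefix h4] at this

theorem mem_loc {x : Fin (n + 1)} {L : List (Ed n)} {e : Ed n} :
    e ∈ loc x L ↔ e ∈ L ∧ (e.1 = x ∨ e.2 = x) := by
  simp [loc]

theorem eqv_mem {L L' : List (Ed n)} (h : Eqv L L') (e : Ed n) : e ∈ L ↔ e ∈ L' := by
  have h1 : e ∈ L ↔ e ∈ loc e.1 L := by simp [mem_loc]
  have h2 : e ∈ L' ↔ e ∈ loc e.1 L' := by simp [mem_loc]
  rw [h1, h2, h e.1]

theorem eqv_pos {L L' : List (Ed n)} (h : Eqv L L') (x : Fin (n + 1)) (e f : Ed n)
    (he : e.1 = x ∨ e.2 = x) (hf : f.1 = x ∨ f.2 = x) : pos L e < pos L f ↔ pos L' e < pos L' f := by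
  rw [← pos_filter (fun e => decide (e.1 = x ∨ e.2 = x)) L e f (by simpa using he) (by simpa using hf),
    ← pos_filter (fun e => decide (e.1 = x ∨ e.2 = x)) L' e f (by simpa using he) (by simpa using hf)]
  have := h x
  unfold loc at this
  rw [this]

theorem eqv_symm {L L' : List (Ed n)} (h : Eqv L L') : Eqv L' L := fun x => (h x).symm

theorem eqv_trans {L L' L'' : List (Ed n)} (h : Eqv L L') (h' : Eqv L' L'') : Eqv L L'' :=
  fun x => (h x).trans (h' x)

theorem eqv_nodup {L L' : List (Ed n)} (h : Eqv L L') (hL : L.Nodup) : L'.Nodup := by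
  rw [List.nodup_iff_count_le_one] at hL ⊢
  intro e
  have h1 : ∀ M : List (Ed n), (loc e.1 M).count e = M.count e := by
    intro M
    unfold loc
    exact List.count_filter (by simp)
  rw [← h1, ← h e.1, h1]
  exact hL e

theorem eqv_val {a c : Fin (n + 1)} {L L' : List (Ed n)} (h : Eqv L L') (hL : Val a c L) : Val a c L' := by
  rw [val_iff] at hL ⊢
  refine ⟨eqv_nodup h hL.1, fun e he => ?_⟩
  refine VC_congr ?_ (hL.2 e ((eqv_mem h e).2 he))
  intro g hg
  rcases hg with hg | hg
  · exact eqv_pos h e.1 g e hg (Or.inl rfl)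
  · exact eqv_pos h e.2 g e hg (Or.inr rfl)

theorem eq_of_order : ∀ M M' : List (Ed n), M.Nodup → M'.Nodup → (∀ e, e ∈ M ↔ e ∈ M') →
    (∀ e f, e ∈ M → f ∈ M → pos M e < pos M f → pos M' e < pos M' f) → M = M' := by
  intro M
  induction M with
  | nil =>
    intro M' _ _ h _
    cases M' with
    | nil => rfl
    | cons e T => exact absurd ((h e).2 (by simp)) (by simp)
  | cons e T ih =>
    intro M' hM hM' hmem hord
    cases M' with
    | nil => exact absurd ((hmem e).1 (by simp)) (by simp)
    | cons f T' =>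
      have hfe : f = e := by
        by_contra hne
        have hf : f ∈ e :: T := (hmem f).2 (by simp)
        have := hord e f (by simp) hf (by rw [pos_cons_self, pos_cons_ne _ (Ne.symm hne)]; omega)
        rw [pos_cons_self] at this
        omega
      subst hfe
      rw [List.nodup_cons] at hM hM'
      congr 1
      refine ih T' hM.2 hM'.2 (fun g => ?_) (fun g h hg hh hgh => ?_)
      · constructor
        · intro hg
          have h1 := (hmem g).1 (List.mem_cons_of_mem _ hg)
          rcases List.mem_cons.1 h1 with rfl | h1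
          · exact absurd hg hM.1
          · exact h1
        · intro hg
          have h1 := (hmem g).2 (List.mem_cons_of_mem _ hg)
          rcases List.mem_cons.1 h1 with rfl | h1
          · exact absurd hg hM'.1
          · exact h1
      · have hg' : f ≠ g := by rintro rfl; exact hM.1 hg
        have hh' : f ≠ h := by rintro rfl; exact hM.1 hh
        have := hord g h (List.mem_cons_of_mem _ hg) (List.mem_cons_of_mem _ hh)
          (by rw [pos_cons_ne _ hg', pos_cons_ne _ hh']; omega)
        rw [pos_cons_ne _ hg', pos_cons_ne _ hh'] at this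
        omega

/-! ### The vectors -/

theorem vstep_comm (q : ℤ) (X : Fin (n + 1) → ℤ) (e f : Ed n) (h1 : ¬ (f.1 = e.1 ∨ f.2 = e.1))
    (h2 : ¬ (f.1 = e.2 ∨ f.2 = e.2)) : vstep q (vstep q X e) f = vstep q (vstep q X f) e := by
  push Not at h1 h2
  obtain ⟨h11, h12⟩ := h1
  obtain ⟨h21, h22⟩ := h2
  funext z
  unfold vstep
  by_cases hf : z = f.1 ∨ z = f.2
  · have hz : ¬ (z = e.1 ∨ z = e.2) := by
      rcases hf with rfl | rfl
      · push Not; exact ⟨h11, h21⟩
      · push Not; exact ⟨h12, h22⟩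
    simp only [hf, hz, if_true, if_false, h11, h12, h21, h22, or_self]
    ring
  · by_cases hz : z = e.1 ∨ z = e.2
    · simp only [hf, hz, if_true, if_false, Ne.symm h11, Ne.symm h12, Ne.symm h21, Ne.symm h22, or_self]
      ring
    · simp only [hf, hz, if_false]

theorem fold_move (q : ℤ) (e : Ed n) : ∀ (A : List (Ed n)),
    (∀ f ∈ A, ¬ (f.1 = e.1 ∨ f.2 = e.1) ∧ ¬ (f.1 = e.2 ∨ f.2 = e.2)) → ∀ X : Fin (n + 1) → ℤ,
    vstep q (A.foldl (vstep q) X) e = A.foldl (vstep q) (vstep q X e)
  | [], _, X => rfl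
  | f :: A, h, X => by
    have h1 := h f (by simp)
    rw [List.foldl_cons, List.foldl_cons, fold_move q e A (fun g hg => h g (by simp [hg])),
      vstep_comm q X e f h1.1 h1.2]

theorem fold_eqv (q : ℤ) : ∀ (L L' : List (Ed n)), L.Nodup → Eqv L L' → ∀ X : Fin (n + 1) → ℤ,
    L.foldl (vstep q) X = L'.foldl (vstep q) X := by
  intro L
  induction L with
  | nil =>
    intro L' _ h X
    cases L' with
    | nil => rfl
    | cons e T => exact absurd ((eqv_mem h e).2 (by simp)) (by simp)
  | cons e T ih =>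
    intro L' hL h X
    have he : e ∈ L' := (eqv_mem h e).1 (by simp)
    obtain ⟨A, B, rfl⟩ := List.append_of_mem he
    have hL' := eqv_nodup h hL
    have heA : e ∉ A := by
      intro hP
      rw [List.nodup_append] at hL'
      exact hL'.2.2 e hP e (by simp) rfl
    have hA : ∀ f ∈ A, ¬ (f.1 = e.1 ∨ f.2 = e.1) ∧ ¬ (f.1 = e.2 ∨ f.2 = e.2) := by
      intro f hf
      have h1 := (mem_prefix (S := B) heA).2 hf
      constructor
      · intro hfe
        have h2 := (eqv_pos h e.1 f e hfe (Or.inl rfl)).2 h1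
        rw [pos_cons_self] at h2
        omega
      · intro hfe
        have h2 := (eqv_pos h e.2 f e hfe (Or.inr rfl)).2 h1
        rw [pos_cons_self] at h2
        omega
    have hTAB : Eqv T (A ++ B) := by
      intro x
      have h1 := h x
      unfold loc at h1 ⊢
      rw [List.filter_append] at h1 ⊢
      by_cases hx : e.1 = x ∨ e.2 = x
      · rw [List.filter_cons_of_pos (by simpa using hx), List.filter_cons_of_pos (by simpa using hx)] at h1
        have hA0 : A.filter (fun e => decide (e.1 = x ∨ e.2 = x)) = [] := by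
          rw [List.filter_eq_nil_iff]
          intro f hf
          have h2 := hA f hf
          rcases hx with rfl | rfl
          · simpa using h2.1
          · simpa using h2.2
        rw [hA0, List.nil_append] at h1 ⊢
        exact (List.cons.inj h1).2
      · rw [List.filter_cons_of_neg (by simpa using hx), List.filter_cons_of_neg (by simpa using hx)] at h1
        exact h1
    rw [List.foldl_cons, List.foldl_append, List.foldl_cons, fold_move q e A hA, ← List.foldl_append]
    exact ih (A ++ B) (List.nodup_cons.1 hL).2 hTAB _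

/-! ### The flip -/

theorem flip_pos {P S : List (Ed n)} {e1 e2 e3 : Ed n} (h : (P ++ e1 :: e2 :: e3 :: S).Nodup) :
    pos (P ++ e1 :: e2 :: e3 :: S) e1 = P.length ∧ pos (P ++ e1 :: e2 :: e3 :: S) e2 = P.length + 1 ∧
    pos (P ++ e1 :: e2 :: e3 :: S) e3 = P.length + 2 ∧
    (∀ g, g ≠ e1 → g ≠ e2 → g ≠ e3 →
      (pos (P ++ e1 :: e2 :: e3 :: S) g < P.length ∨ P.length + 3 ≤ pos (P ++ e1 :: e2 :: e3 :: S) g) ∧
      pos (P ++ e3 :: e2 :: e1 :: S) g = pos (P ++ e1 :: e2 :: e3 :: S) g) := by
  rw [List.nodup_append] at h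
  obtain ⟨_, h1, h2⟩ := h
  simp only [List.nodup_cons, List.mem_cons, not_or] at h1
  have hP : ∀ g, g = e1 ∨ g = e2 ∨ g = e3 → g ∉ P := by
    intro g hg hgP
    exact h2 g hgP g (by rcases hg with rfl | rfl | rfl <;> simp) rfl
  refine ⟨pos_mid (hP _ (by simp)), ?_, ?_, ?_⟩
  · unfold pos
    rw [List.idxOf_append_of_notMem (hP _ (by simp)), List.idxOf_cons_ne _ h1.1.1, List.idxOf_cons_self]
  · unfold pos
    rw [List.idxOf_append_of_notMem (hP _ (by simp)), List.idxOf_cons_ne _ h1.1.2.1,
      List.idxOf_cons_ne _ h1.2.1.1, List.idxOf_cons_self]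
  · intro g g1 g2 g3
    unfold pos
    by_cases hg : g ∈ P
    · rw [List.idxOf_append_of_mem hg, List.idxOf_append_of_mem hg]
      exact ⟨Or.inl (List.idxOf_lt_length_iff.2 hg), rfl⟩
    · rw [List.idxOf_append_of_notMem hg, List.idxOf_append_of_notMem hg,
        List.idxOf_cons_ne _ (Ne.symm g1), List.idxOf_cons_ne _ (Ne.symm g2), List.idxOf_cons_ne _ (Ne.symm g3),
        List.idxOf_cons_ne _ (Ne.symm g3), List.idxOf_cons_ne _ (Ne.symm g2), List.idxOf_cons_ne _ (Ne.symm g1)]
      exact ⟨Or.inr (by omega), rfl⟩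

theorem flip_nodup {P S : List (Ed n)} {e1 e2 e3 : Ed n} (h : (P ++ e1 :: e2 :: e3 :: S).Nodup) :
    (P ++ e3 :: e2 :: e1 :: S).Nodup := by
  refine (List.Perm.nodup_iff ?_).1 h
  refine List.Perm.append_left P ?_
  refine List.Perm.trans (List.Perm.swap e2 e1 _) ?_
  refine List.Perm.trans (List.Perm.cons e2 (List.Perm.swap e3 e1 _)) ?_
  exact List.Perm.swap e3 e2 _

theorem flip_val {a z c : Fin (n + 1)} (haz : a < z) (hzc : z < c) {P S : List (Ed n)}
    (h : Val a c (P ++ (z, c) :: (a, c) :: (a, z) :: S)) : Val a c (P ++ (a, z) :: (a, c) :: (z, c) :: S) := by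
  rw [val_iff] at h ⊢
  obtain ⟨hnd, hV⟩ := h
  refine ⟨flip_nodup hnd, ?_⟩
  obtain ⟨p1, p2, p3, pg⟩ := flip_pos hnd
  obtain ⟨r3, r2, r1, _⟩ := flip_pos (flip_nodup hnd)
  have hac : a < c := haz.trans hzc
  have hQ1 := hV (z, c) (by simp)
  have hQ2 := hV (a, c) (by simp)
  have hQ3 := hV (a, z) (by simp)
  generalize hM : P ++ (z, c) :: (a, c) :: (a, z) :: S = M at *
  generalize hM' : P ++ (a, z) :: (a, c) :: (z, c) :: S = M' at *
  generalize hm : P.length = m at *
  -- facts on the prefix
  obtain ⟨_, _, _, _, a2, a3⟩ := hQ1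
  obtain ⟨_, _, _, _, _, b3⟩ := hQ2
  obtain ⟨_, _, _, c1, _, c3⟩ := hQ3
  dsimp only at a2 a3 b3 c1 c3
  rw [p1] at a2 a3
  rw [p2] at b3
  rw [p3] at c1 c3
  have hne : ∀ x y : Fin (n + 1), x < y → (y ≠ x) ∧ (x ≠ y) := fun x y h => ⟨ne_of_gt h, ne_of_lt h⟩
  obtain ⟨haz1, haz2⟩ := hne _ _ haz
  obtain ⟨hzc1, hzc2⟩ := hne _ _ hzc
  obtain ⟨hac1, hac2⟩ := hne _ _ hac
  intro e he
  by_cases he1 : e = (z, c)
  · subst he1
    refine ⟨haz.le, hzc, le_rfl, ?_, ?_, ?_⟩
    · intro w hw hw'
      exact absurd hw (not_lt.2 hw')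
    · intro w hw hw'
      dsimp only
      rw [r1]
      rcases eq_or_lt_of_le hw with rfl | hw
      · rw [r3, r2]
        omega
      · have ha := a2 w hw.le hw'
        have g1 := pg (w, z) (by simp [hzc2]) (by simp [hzc2]) (by simp [ne_of_gt hw])
        have g2 := pg (w, c) (by simp [ne_of_lt hw']) (by simp [ne_of_gt hw]) (by simp [ne_of_gt hw])
        rw [g1.2, g2.2]
        omega
    · intro w hw hw'
      dsimp only
      rw [r1]
      have ha := a3 w hw hw'
      have g1 := pg (z, w) (by simp [ne_of_lt hw']) (by simp [haz1]) (by simp [haz1])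
      have g2 := pg (w, c) (by simp [ne_of_gt hw]) (by simp [ne_of_gt (haz.trans hw)]) (by simp [hzc1])
      rw [g1.2, g2.2]
      omega
  by_cases he2 : e = (a, c)
  · subst he2
    refine ⟨le_rfl, hac, le_rfl, ?_, ?_, ?_⟩
    · intro w hw hw'
      exact absurd hw (not_lt.2 hw')
    · intro w hw hw'
      exact absurd hw' (not_lt.2 hw)
    · intro w hw hw'
      dsimp only
      rw [r2]
      by_cases hwz : w = z
      · subst hwz
        rw [r3, r1]
        omega
      · have ha := b3 w hw hw'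
        have g1 := pg (a, w) (by simp [haz2]) (by simp [ne_of_lt hw']) (by simp [hwz])
        have g2 := pg (w, c) (by simp [hwz]) (by simp [ne_of_gt hw]) (by simp [hzc1])
        rw [g1.2, g2.2]
        omega
  by_cases he3 : e = (a, z)
  · subst he3
    refine ⟨le_rfl, haz, hzc.le, ?_, ?_, ?_⟩
    · intro w hw hw'
      dsimp only
      rw [r3]
      rcases eq_or_lt_of_le hw' with rfl | hw'
      · rw [r1, r2]
        omega
      · have ha := c1 w hw hw'.le
        have g1 := pg (z, w) (by simp [ne_of_lt hw']) (by simp [haz1]) (by simp [haz1])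
        have g2 := pg (a, w) (by simp [haz2]) (by simp [ne_of_lt hw']) (by simp [ne_of_gt hw])
        rw [g1.2, g2.2]
        omega
    · intro w hw hw'
      exact absurd hw' (not_lt.2 hw)
    · intro w hw hw'
      dsimp only
      rw [r3]
      have ha := c3 w hw hw'
      have g1 := pg (a, w) (by simp [haz2]) (by simp [ne_of_lt (hw'.trans hzc)]) (by simp [ne_of_lt hw'])
      have g2 := pg (w, z) (by simp [hzc2]) (by simp [hzc2]) (by simp [ne_of_gt hw])
      rw [g1.2, g2.2]
      omega
  · have heM : e ∈ M := by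
      rw [← hM']  at he
      rw [← hM]
      simp only [List.mem_append, List.mem_cons] at he ⊢
      tauto
    refine VC_congr ?_ (hV e heM)
    intro g _
    have ge := pg e he1 he2 he3
    rw [ge.2]
    by_cases g1 : g = (z, c)
    · subst g1
      rw [p1, r1]
      omega
    by_cases g2 : g = (a, c)
    · subst g2
      rw [p2, r2]
    by_cases g3 : g = (a, z)
    · subst g3
      rw [p3, r3]
      omega
    rw [(pg g g1 g2 g3).2]

theorem decomp {L : List (Ed n)} {e1 e2 e3 : Ed n} (hnd : L.Nodup) (h12 : pos L e1 < pos L e2)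
    (h23 : pos L e2 < pos L e3) (h3 : e3 ∈ L) :
    ∃ P Q R S : List (Ed n), L = P ++ e1 :: (Q ++ e2 :: (R ++ e3 :: S)) ∧
      (∀ f ∈ Q, pos L e1 < pos L f ∧ pos L f < pos L e2) ∧ (∀ f ∈ R, pos L e2 < pos L f ∧ pos L f < pos L e3) := by
  obtain ⟨A, S, hL⟩ := List.append_of_mem h3
  have hA3 : e3 ∉ A := by
    intro h
    rw [hL, List.nodup_append] at hnd
    exact hnd.2.2 e3 h e3 (by simp) rfl
  have h2A : e2 ∈ A := by
    rw [hL] at h23
    exact (mem_prefix hA3).1 h23
  obtain ⟨B, R, hAB⟩ := List.append_of_mem h2A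
  have hL2 : L = B ++ e2 :: (R ++ e3 :: S) := by rw [hL, hAB]; simp
  have hB2 : e2 ∉ B := by
    intro h
    rw [hL2, List.nodup_append] at hnd
    exact hnd.2.2 e2 h e2 (by simp) rfl
  have h1B : e1 ∈ B := by
    rw [hL2] at h12
    exact (mem_prefix hB2).1 h12
  obtain ⟨P, Q, hBP⟩ := List.append_of_mem h1B
  have hL1 : L = P ++ e1 :: (Q ++ e2 :: (R ++ e3 :: S)) := by rw [hL2, hBP]; simp
  have hP1 : e1 ∉ P := by
    intro h
    rw [hL1, List.nodup_append] at hnd
    exact hnd.2.2 e1 h e1 (by simp) rfl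
  refine ⟨P, Q, R, S, hL1, ?_, ?_⟩
  · intro f hf
    have hf2 : pos L f < pos L e2 := by
      rw [hL2]
      exact (mem_prefix hB2).2 (by rw [hBP]; simp [hf])
    have hfP : ¬ pos L f < pos L e1 := by
      intro h
      rw [hL1] at h
      have hP := (mem_prefix hP1).1 h
      rw [hL1, List.nodup_append] at hnd
      exact hnd.2.2 f hP f (by simp [hf]) rfl
    have hfe : pos L e1 ≠ pos L f := by
      intro h
      have h1 : e1 ∈ L := by rw [hL1]; simp
      have h2 := pos_inj h1 h
      rw [hL1, List.nodup_append, List.nodup_cons] at hnd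
      exact hnd.2.1.1 (by rw [h2]; simp [hf])
    omega
  · intro f hf
    have hf2 : pos L f < pos L e3 := by
      rw [hL]
      exact (mem_prefix hA3).2 (by rw [hAB]; simp [hf])
    have hfP : ¬ pos L f < pos L e2 := by
      intro h
      rw [hL2] at h
      have hP := (mem_prefix hB2).1 h
      rw [hL2, List.nodup_append] at hnd
      exact hnd.2.2 f hP f (by simp [hf]) rfl
    have hfe : pos L e2 ≠ pos L f := by
      intro h
      have h1 : e2 ∈ L := by rw [hL2]; simp
      have h2 := pos_inj h1 h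
      rw [hL2, List.nodup_append, List.nodup_cons] at hnd
      exact hnd.2.1.1 (by rw [h2]; simp [hf])
    omega

theorem filter_swap (p : Ed n → Bool) (e : Ed n) (Q : List (Ed n)) (h : p e = true → ∀ f ∈ Q, p f = false) :
    (e :: Q).filter p = (Q ++ [e]).filter p := by
  rw [List.filter_append]
  by_cases he : p e = true
  · have hQ : Q.filter p = [] := by
      rw [List.filter_eq_nil_iff]
      intro f hf
      rw [h he f hf]
      decide
    rw [List.filter_cons_of_pos he, hQ, List.filter_cons_of_pos he]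
    rfl
  · rw [List.filter_cons_of_neg he, List.filter_cons_of_neg he]
    simp

theorem bring {P Q R S : List (Ed n)} {e1 e2 e3 : Ed n}
    (hQ : ∀ f ∈ Q, ∀ x, (e1.1 = x ∨ e1.2 = x) → ¬ (f.1 = x ∨ f.2 = x))
    (hR : ∀ f ∈ R, ∀ x, (e3.1 = x ∨ e3.2 = x) → ¬ (f.1 = x ∨ f.2 = x)) :
    Eqv (P ++ e1 :: (Q ++ e2 :: (R ++ e3 :: S))) ((P ++ Q) ++ e1 :: e2 :: e3 :: (R ++ S)) := by
  intro x
  unfold loc
  have h1 := filter_swap (fun e => decide (e.1 = x ∨ e.2 = x)) e1 Q (by
    intro he f hf
    simpa using hQ f hf x (by simpa using he))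
  have h3 := filter_swap (fun e => decide (e.1 = x ∨ e.2 = x)) e3 R (by
    intro he f hf
    simpa using hR f hf x (by simpa using he))
  have e1' : P ++ e1 :: (Q ++ e2 :: (R ++ e3 :: S)) = P ++ ((e1 :: Q) ++ ([e2] ++ ((R ++ [e3]) ++ S))) := by simp
  have e2' : (P ++ Q) ++ e1 :: e2 :: e3 :: (R ++ S) = P ++ ((Q ++ [e1]) ++ ([e2] ++ ((e3 :: R) ++ S))) := by simp
  rw [e1', e2']
  simp only [List.filter_append] at h1 h3 ⊢
  rw [h1, h3]

/-! ### The main argument -/

structure Hyp (a c : Fin (n + 1)) (L L' : List (Ed n)) : Prop where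
  vL : Val a c L
  vL' : Val a c L'
  mem : ∀ e, e ∈ L ↔ e ∈ L'
  f1 : Eqv (L.filter fun e => e.1 ≠ a) (L'.filter fun e => e.1 ≠ a)
  f2 : Eqv (L.filter fun e => e.2 ≠ c) (L'.filter fun e => e.2 ≠ c)

theorem Hyp.symm {a c : Fin (n + 1)} {L L' : List (Ed n)} (h : Hyp a c L L') : Hyp a c L' L :=
  ⟨h.vL', h.vL, fun e => (h.mem e).symm, eqv_symm h.f1, eqv_symm h.f2⟩

theorem f1_pos {a c : Fin (n + 1)} {L L' : List (Ed n)} (h : Hyp a c L L') (x : Fin (n + 1)) (e f : Ed n)
    (he : e.1 ≠ a) (hf : f.1 ≠ a) (ex : e.1 = x ∨ e.2 = x) (fx : f.1 = x ∨ f.2 = x) :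
    pos L e < pos L f ↔ pos L' e < pos L' f := by
  rw [← pos_filter (fun e => decide (e.1 ≠ a)) L e f (by simpa using he) (by simpa using hf),
    ← pos_filter (fun e => decide (e.1 ≠ a)) L' e f (by simpa using he) (by simpa using hf)]
  exact eqv_pos h.f1 x e f ex fx

theorem f2_pos {a c : Fin (n + 1)} {L L' : List (Ed n)} (h : Hyp a c L L') (x : Fin (n + 1)) (e f : Ed n)
    (he : e.2 ≠ c) (hf : f.2 ≠ c) (ex : e.1 = x ∨ e.2 = x) (fx : f.1 = x ∨ f.2 = x) :
    pos L e < pos L f ↔ pos L' e < pos L' f := by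
  rw [← pos_filter (fun e => decide (e.2 ≠ c)) L e f (by simpa using he) (by simpa using hf),
    ← pos_filter (fun e => decide (e.2 ≠ c)) L' e f (by simpa using he) (by simpa using hf)]
  exact eqv_pos h.f2 x e f ex fx

theorem eqv_filter {L L' : List (Ed n)} (h : Eqv L L') (p : Ed n → Bool) : Eqv (L.filter p) (L'.filter p) := by
  intro x
  have h1 := h x
  unfold loc at h1 ⊢
  rw [List.filter_filter, List.filter_filter]
  have e1 : ∀ M : List (Ed n), M.filter (fun e => decide (e.1 = x ∨ e.2 = x) && p e) =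
      (M.filter (fun e => decide (e.1 = x ∨ e.2 = x))).filter p := by
    intro M
    rw [List.filter_filter]
    refine List.filter_congr fun e _ => ?_
    rw [Bool.and_comm]
  rw [e1, e1, h1]

def DD (a c : Fin (n + 1)) (L L' : List (Ed n)) (z : Fin (n + 1)) : Prop :=
  (a, z) ∈ L ∧ pos L (a, c) < pos L (a, z) ∧ pos L' (a, z) < pos L' (a, c)

theorem DD.ne {a c : Fin (n + 1)} {L L' : List (Ed n)} {z : Fin (n + 1)} (h : DD a c L L' z) : z ≠ c := by
  rintro rfl
  exact lt_irrefl _ h.2.1

theorem excl {a c : Fin (n + 1)} {L L' : List (Ed n)} (h : Hyp a c L L') {z y : Fin (n + 1)}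
    (hz : DD a c L L' z) (hy : DD a c L' L y) : False := by
  have h1 := f2_pos h a (a, y) (a, z) hy.ne hz.ne (Or.inl rfl) (Or.inl rfl)
  have h2 := hz.2.1
  have h3 := hz.2.2
  have h4 := hy.2.1
  have h5 := hy.2.2
  omega

theorem step (hE1 : S_E1) {q : ℤ} (hq : 0 < q) {a c : Fin (n + 1)} {L L' : List (Ed n)} (h : Hyp a c L L')
    (hD : ∃ z, DD a c L L' z) :
    ∃ (z : Fin (n + 1)) (L2 : List (Ed n)), DD a c L L' z ∧ Hyp a c L2 L' ∧
      L2.foldl (vstep q) (Pi.single a 1) c < L.foldl (vstep q) (Pi.single a 1) c ∧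
      (∀ w, DD a c L2 L' w ↔ DD a c L L' w ∧ w ≠ z) ∧ (∀ w, DD a c L' L2 w → DD a c L' L w) := by
  classical
  obtain ⟨z0, hz0⟩ := hD
  obtain ⟨z, hzm, hmin⟩ := Finset.exists_min_image
    (Finset.univ.filter fun w : Fin (n + 1) => (a, w) ∈ L ∧ pos L (a, c) < pos L (a, w))
    (fun w => pos L (a, w)) ⟨z0, by simp [hz0.1, hz0.2.1]⟩
  simp only [Finset.mem_filter, Finset.mem_univ, true_and, and_imp] at hzm hmin
  obtain ⟨hzL, hacz⟩ := hzm
  have hzc' : z ≠ c := by rintro rfl; exact lt_irrefl _ hacz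
  have hz : DD a c L L' z := by
    refine ⟨hzL, hacz, ?_⟩
    by_cases hzz : z = z0
    · rw [hzz]; exact hz0.2.2
    · have h1 : pos L (a, z) < pos L (a, z0) := by
        refine lt_of_le_of_ne (hmin z0 hz0.1 hz0.2.1) fun h' => hzz ?_
        exact (Prod.ext_iff.1 (pos_inj hzL h')).2
      exact ((f2_pos h a (a, z) (a, z0) hzc' hz0.ne (Or.inl rfl) (Or.inl rfl)).1 h1).trans hz0.2.2
  have hzL' : pos L' (a, z) < pos L' (a, c) := hz.2.2
  obtain ⟨hnd, hV⟩ := val_iff.1 h.vL
  obtain ⟨hnd', hV'⟩ := val_iff.1 h.vL'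
  have hacL : (a, c) ∈ L := mem_of_pos hacz
  have hacL' : (a, c) ∈ L' := (h.mem _).1 hacL
  obtain ⟨_, haz, hzc0, c1, _, c3⟩ := hV (a, z) hzL
  obtain ⟨_, hac, _, _, _, b3⟩ := hV (a, c) hacL
  obtain ⟨_, _, _, _, _, b3'⟩ := hV' (a, c) hacL'
  dsimp only at haz hzc0 c1 c3 hac b3 b3'
  have hzc : z < c := lt_of_le_of_ne hzc0 hzc'
  have hzcL : pos L (z, c) < pos L (a, c) := by
    have := b3 z haz hzc
    omega
  have hzcm : (z, c) ∈ L := mem_of_pos hzcL
  have hzcm' : (z, c) ∈ L' := (h.mem _).1 hzcm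
  have hzcL' : pos L' (a, c) < pos L' (z, c) := by
    have h1 := b3' z haz hzc
    have h2 : pos L' (a, c) ≠ pos L' (z, c) := fun h' =>
      (ne_of_lt haz) (Prod.ext_iff.1 (pos_inj hacL' h')).1
    omega
  obtain ⟨_, _, _, _, _, a3⟩ := hV (z, c) hzcm
  dsimp only at a3
  -- (i)
  have hi : ∀ f ∈ L, (f.1 = a ∨ f.2 = a) → pos L (a, c) < pos L f → ¬ pos L f < pos L (a, z) := by
    rintro ⟨u, v⟩ hf htouch h1 h2
    rcases htouch with hu | hv
    · dsimp only at hu
      subst hu
      have := hmin v hf h1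
      omega
    · dsimp only at hv
      subst hv
      obtain ⟨k1, k2, _⟩ := hV _ hf
      exact absurd k2 (not_lt.2 k1)
  -- (ii)
  have hii : ∀ f ∈ L, (f.1 = z ∨ f.2 = z) → pos L (z, c) < pos L f → ¬ pos L f < pos L (a, z) := by
    rintro ⟨u, v⟩ hf htouch h1 h2
    have hu : u ≠ a := by
      rintro rfl
      rcases htouch with h3 | h3
      · exact (ne_of_lt haz) h3
      · dsimp only at h3
        subst h3
        exact lt_irrefl _ h2
    have hv : v ≠ c := by
      rintro rfl
      rcases htouch with h3 | h3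
      · dsimp only at h3
        subst h3
        exact lt_irrefl _ h1
      · exact (ne_of_gt hzc) h3
    have h3 := (f1_pos h z (z, c) (u, v) (ne_of_gt haz) hu (Or.inl rfl) htouch).1 h1
    have h4 := (f2_pos h z (u, v) (a, z) hv hzc' htouch (Or.inr rfl)).1 h2
    omega
  -- (iii)
  have hiii : ∀ f ∈ L, (f.1 = c ∨ f.2 = c) → pos L (z, c) < pos L f → ¬ pos L f < pos L (a, c) := by
    rintro ⟨y, v⟩ hf htouch h1 h2
    obtain ⟨k1, k2, k3, k4, k5, k6⟩ := hV _ hf
    dsimp only at k1 k2 k3 k4 k5 k6 htouch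
    have hv : v = c := by
      rcases htouch with rfl | hv
      · exact absurd k2 (not_lt.2 k3)
      · exact hv
    subst hv
    have hya : y ≠ a := by
      rintro rfl
      exact lt_irrefl _ h2
    have hyz : y ≠ z := by
      rintro rfl
      exact lt_irrefl _ h1
    have hay : a < y := lt_of_le_of_ne k1 (Ne.symm hya)
    have hy1 : ¬ pos L (a, y) < pos L (a, v) := by
      have := b3 y hay k2
      omega
    have hy2 : ¬ pos L (a, y) < pos L (a, z) := by
      intro h3
      have hm : (a, y) ∈ L := mem_of_pos h3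
      have h4 : pos L (a, y) ≠ pos L (a, v) := fun h' =>
        (ne_of_lt k2) (Prod.ext_iff.1 (pos_inj hm h')).2
      have h5 := hmin y hm (by omega)
      omega
    rcases lt_or_gt_of_ne hyz with hlt | hgt
    · -- `y < z`
      have h3 := k6 z hlt hzc
      have h4 := c3 y hay hlt
      have h5 : pos L (y, z) < pos L (a, z) := by omega
      exact hii (y, z) (mem_of_pos h5) (Or.inr rfl) (by omega) h5
    · -- `z < y`
      have h3 := a3 y hgt k2
      have h4 := c1 y hgt k2.le
      omega
  obtain ⟨P, Q, R, S, hL, hQ, hR⟩ := decomp hnd hzcL hacz hzL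
  have hE : Eqv L ((P ++ Q) ++ (z, c) :: (a, c) :: (a, z) :: (R ++ S)) := by
    rw [hL]
    refine bring ?_ ?_
    · intro f hf x hx hfx
      have hfL : f ∈ L := by rw [hL]; simp [hf]
      have h1 := hQ f hf
      rcases hx with hx | hx
      · dsimp only at hx
        subst hx
        exact hii f hfL hfx h1.1 (by omega)
      · dsimp only at hx
        subst hx
        exact hiii f hfL hfx h1.1 h1.2
    · intro f hf x hx hfx
      have hfL : f ∈ L := by rw [hL]; simp [hf]
      have h1 := hR f hf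
      rcases hx with hx | hx
      · dsimp only at hx
        subst hx
        exact hi f hfL hfx h1.1 h1.2
      · dsimp only at hx
        subst hx
        exact hii f hfL hfx (by omega) h1.2
  have V1 := eqv_val hE h.vL
  have V2 := flip_val haz hzc V1
  have hnd1 := (val_iff.1 V1).1
  obtain ⟨p1, p2, p3, pg⟩ := flip_pos hnd1
  obtain ⟨r3, r2, r1, _⟩ := flip_pos (flip_nodup hnd1)
  have hmem12 : ∀ e, e ∈ (P ++ Q) ++ (a, z) :: (a, c) :: (z, c) :: (R ++ S) ↔ e ∈ L := by
    intro e
    rw [eqv_mem hE e]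
    simp only [List.mem_append, List.mem_cons]
    tauto
  -- comparison of positions
  have hcmp : ∀ w, w ≠ z → w ≠ c →
      (pos ((P ++ Q) ++ (a, z) :: (a, c) :: (z, c) :: (R ++ S)) (a, w) <
        pos ((P ++ Q) ++ (a, z) :: (a, c) :: (z, c) :: (R ++ S)) (a, c) ↔ pos L (a, w) < pos L (a, c)) ∧
      (pos ((P ++ Q) ++ (a, z) :: (a, c) :: (z, c) :: (R ++ S)) (a, c) <
        pos ((P ++ Q) ++ (a, z) :: (a, c) :: (z, c) :: (R ++ S)) (a, w) ↔ pos L (a, c) < pos L (a, w)) := by
    intro w hwz hwc
    have g := pg (a, w) (by simp [ne_of_lt haz]) (by simp [hwc]) (by simp [hwz])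
    have e1 := eqv_pos hE a (a, w) (a, c) (Or.inl rfl) (Or.inl rfl)
    have e2 := eqv_pos hE a (a, c) (a, w) (Or.inl rfl) (Or.inl rfl)
    rw [e1, e2, g.2, r2, p2]
    exact ⟨Iff.rfl, Iff.rfl⟩
  refine ⟨z, (P ++ Q) ++ (a, z) :: (a, c) :: (z, c) :: (R ++ S), hz, ?_, ?_, ?_, ?_⟩
  · refine ⟨V2, h.vL', fun e => (hmem12 e).trans (h.mem e), ?_, ?_⟩
    · refine eqv_trans ?_ h.f1
      refine eqv_trans ?_ (eqv_filter (eqv_symm hE) _)
      intro x
      congr 1
      simp [List.filter_append, List.filter_cons, ne_of_gt haz]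
    · refine eqv_trans ?_ h.f2
      refine eqv_trans ?_ (eqv_filter (eqv_symm hE) _)
      intro x
      congr 1
      simp [List.filter_append, List.filter_cons, hzc']
  · rw [fold_eqv q L _ hnd hE]
    exact hE1 n q a z c (P ++ Q) (R ++ S) hq haz hzc V2
  · intro w
    constructor
    · rintro ⟨w1, w2, w3⟩
      have hwz : w ≠ z := by
        rintro rfl
        omega
      have hwc : w ≠ c := by
        rintro rfl
        exact lt_irrefl _ w2
      exact ⟨⟨(hmem12 _).1 w1, (hcmp w hwz hwc).2.1 w2, w3⟩, hwz⟩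
    · rintro ⟨hw, hwz⟩
      exact ⟨(hmem12 _).2 hw.1, (hcmp w hwz hw.ne).2.2 hw.2.1, hw.2.2⟩
  · rintro w ⟨w1, w2, w3⟩
    have hwz : w ≠ z := by
      rintro rfl
      omega
    have hwc : w ≠ c := by
      rintro rfl
      exact lt_irrefl _ w2
    exact ⟨w1, w2, (hcmp w hwz hwc).1.1 w3⟩

theorem final {a c : Fin (n + 1)} {L L' : List (Ed n)} (h : Hyp a c L L') (h1 : ∀ z, ¬ DD a c L L' z)
    (h2 : ∀ z, ¬ DD a c L' L z) : Eqv L L' := by
  obtain ⟨hnd, hV⟩ := val_iff.1 h.vL
  obtain ⟨hnd', hV'⟩ := val_iff.1 h.vL'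
  have hne : ∀ e f, e ∈ L → e ≠ f → pos L e ≠ pos L f ∧ pos L' e ≠ pos L' f := fun e f he hef =>
    ⟨fun h' => hef (pos_inj he h'), fun h' => hef (pos_inj ((h.mem e).1 he) h')⟩
  have order_ac : ∀ w, pos L (a, w) < pos L (a, c) ↔ pos L' (a, w) < pos L' (a, c) := by
    intro w
    by_cases hw : (a, w) ∈ L
    · have hw' := (h.mem _).1 hw
      by_cases hwc : w = c
      · subst hwc
        simp
      · have k1 := hne (a, w) (a, c) hw (by simp [hwc])
        have k2 : ¬ (pos L (a, c) < pos L (a, w) ∧ pos L' (a, w) < pos L' (a, c)) := fun hh =>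
          h1 w ⟨hw, hh.1, hh.2⟩
        have k3 : ¬ (pos L' (a, c) < pos L' (a, w) ∧ pos L (a, w) < pos L (a, c)) := fun hh =>
          h2 w ⟨hw', hh.1, hh.2⟩
        omega
    · have hw' : (a, w) ∉ L' := fun h' => hw ((h.mem _).2 h')
      rw [pos_not hw, pos_not hw']
      have k1 := pos_le L (a, c)
      have k2 := pos_le L' (a, c)
      omega
  have order_wc : ∀ w, a < w → w < c → (a, c) ∈ L →
      (pos L (w, c) < pos L (a, c) ↔ pos L' (w, c) < pos L' (a, c)) := by
    intro w haw hwc hac
    have k1 := (hV (a, c) hac).2.2.2.2.2 w haw hwc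
    have k2 := (hV' (a, c) ((h.mem _).1 hac)).2.2.2.2.2 w haw hwc
    have k3 := order_ac w
    dsimp only at k1 k2
    omega
  have order_x : ∀ x, a < x → x < c → (a, x) ∈ L → (x, c) ∈ L →
      (pos L (a, x) < pos L (x, c) ↔ pos L' (a, x) < pos L' (x, c)) := by
    intro x hax hxc hm1 hm2
    by_cases hac : (a, c) ∈ L
    · have k1 := (hV (a, c) hac).2.2.2.2.2 x hax hxc
      have k2 := (hV' (a, c) ((h.mem _).1 hac)).2.2.2.2.2 x hax hxc
      have k3 := order_ac x
      have k4 := hne (a, x) (a, c) hm1 (by simp [ne_of_lt hxc])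
      have k5 := hne (x, c) (a, c) hm2 (by simp [ne_of_gt hax])
      dsimp only at k1 k2
      omega
    · exfalso
      have k1 := hne (a, x) (x, c) hm1 (by simp [ne_of_lt hax])
      rcases lt_or_gt_of_ne k1.1 with hlt | hgt
      · have k2 := (hV (x, c) hm2).2.2.2.2.1 a le_rfl hax
        dsimp only at k2
        exact hac (mem_of_pos (k2.1 hlt))
      · have k2 := (hV (a, x) hm1).2.2.2.1 c hxc le_rfl
        dsimp only at k2
        exact hac (mem_of_pos (k2.1 hgt))
  -- all pairs
  have key : ∀ x e f, e ∈ L → f ∈ L → (e.1 = x ∨ e.2 = x) → (f.1 = x ∨ f.2 = x) → pos L e < pos L f →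
      pos L' e < pos L' f := by
    intro x e f he hf hex hfx hlt
    have hef : e ≠ f := by
      rintro rfl
      exact lt_irrefl _ hlt
    have hn := hne e f he hef
    by_cases hA : e.1 ≠ a ∧ f.1 ≠ a
    · exact (f1_pos h x e f hA.1 hA.2 hex hfx).1 hlt
    by_cases hB : e.2 ≠ c ∧ f.2 ≠ c
    · exact (f2_pos h x e f hB.1 hB.2 hex hfx).1 hlt
    obtain ⟨u, v⟩ := e
    obtain ⟨s, t⟩ := f
    obtain ⟨e1, e2, e3, _⟩ := hV _ he
    obtain ⟨f1, f2, f3, _⟩ := hV _ hf
    dsimp only at hex hfx hA hB e1 e2 e3 f1 f2 f3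
    by_cases hua : u = a
    · subst hua
      by_cases hvc : v = c
      · subst hvc
        -- `e = (a, c)`
        by_cases hsa : s = u
        · subst hsa
          have := order_ac t
          omega
        · have htc : t = v := by
            rcases hex with rfl | rfl
            · rcases hfx with hh | hh
              · exact absurd hh hsa
              · subst hh
                exact absurd f2 (not_lt.2 f1)
            · rcases hfx with hh | hh
              · subst hh
                exact absurd f2 (not_lt.2 f3)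
              · exact hh
          subst htc
          have := order_wc s (lt_of_le_of_ne f1 (Ne.symm hsa)) f2 he
          omega
      · -- `e = (a, v)`, `t = c`
        have htc : t = c := by
          by_contra htc
          exact hB ⟨hvc, htc⟩
        subst htc
        by_cases hsa : s = u
        · subst hsa
          have := order_ac v
          omega
        · have hsv : s = v := by
            rcases hex with rfl | rfl
            · rcases hfx with hh | hh
              · exact absurd hh hsa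
              · subst hh
                exact absurd f2 (not_lt.2 f1)
            · rcases hfx with hh | hh
              · exact hh
              · exact absurd hh.symm hvc
          subst hsv
          have := order_x s e2 f2 he hf
          omega
    · -- `f.1 = a`
      have hsa : s = a := by
        by_contra hsa
        exact hA ⟨hua, hsa⟩
      subst hsa
      by_cases htc : t = c
      · subst htc
        have hvc : v = t := by
          rcases hfx with rfl | rfl
          · rcases hex with hh | hh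
            · exact absurd hh hua
            · subst hh
              exact absurd e2 (not_lt.2 e1)
          · rcases hex with hh | hh
            · subst hh
              exact absurd e2 (not_lt.2 e3)
            · exact hh
        subst hvc
        have := order_wc u (lt_of_le_of_ne e1 (Ne.symm hua)) e2 hf
        omega
      · have hvc : v = c := by
          by_contra hvc
          exact hB ⟨hvc, htc⟩
        subst hvc
        have hut : u = t := by
          rcases hfx with rfl | rfl
          · rcases hex with hh | hh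
            · exact absurd hh hua
            · subst hh
              exact absurd e2 (not_lt.2 e1)
          · rcases hex with hh | hh
            · exact hh
            · exact absurd hh.symm htc
        subst hut
        have := order_x u f2 e2 hf he
        omega
  intro x
  refine eq_of_order _ _ (hnd.filter _) (hnd'.filter _) (fun e => ?_) (fun e f he hf hlt => ?_)
  · rw [mem_loc, mem_loc, h.mem e]
  · have he' := mem_loc.1 he
    have hf' := mem_loc.1 hf
    unfold loc at hlt ⊢
    rw [pos_filter _ _ _ _ (by simpa using he'.2) (by simpa using hf'.2)] at hlt ⊢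
    exact key x e f he'.1 hf'.1 he'.2 hf'.2 hlt

theorem main (hE1 : S_E1) {q : ℤ} (hq : 0 < q) {a c : Fin (n + 1)} {L' : List (Ed n)} :
    ∀ (k : ℕ) (L : List (Ed n)), Hyp a c L L' → {w | DD a c L L' w}.ncard = k → 0 < k →
      L'.foldl (vstep q) (Pi.single a 1) c < L.foldl (vstep q) (Pi.single a 1) c := by
  intro k
  induction k with
  | zero => intro L _ _ h; exact absurd h (lt_irrefl _)
  | succ k ih =>
    intro L h hk _
    have hD : ∃ z, DD a c L L' z := by
      have : {w | DD a c L L' w}.Nonempty := by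
        rw [← Set.ncard_pos]
        omega
      exact this
    obtain ⟨z, L2, hz, h2, hlt, hw, hw'⟩ := step hE1 hq h hD
    have hset : {w | DD a c L2 L' w} = {w | DD a c L L' w} \ {z} := by
      ext w
      simpa using hw w
    have hcard : {w | DD a c L2 L' w}.ncard = k := by
      rw [hset, Set.ncard_diff_singleton_of_mem (show z ∈ {w | DD a c L L' w} from hz), hk]
      rfl
    rcases Nat.eq_zero_or_pos k with hk0 | hk0
    · have hE : Eqv L2 L' := by
        refine final h2 (fun w hd => ?_) (fun w hd => excl h hz (hw' w hd))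
        rw [hk0, Set.ncard_eq_zero] at hcard
        have : w ∈ {w | DD a c L2 L' w} := hd
        rw [hcard] at this
        exact this
      rw [← fold_eqv q L2 L' (val_iff.1 h2.vL).1 hE]
      exact hlt
    · exact (ih L2 h2 hcard hk0).trans hlt

theorem e2_of_e1 (hE1 : S_E1) : S_E2 := by
  intro n q a c L L' hq _ hv hv' hmem hf1 hf2 heq
  have h : Hyp a c L L' := ⟨hv, hv', hmem, hf1, hf2⟩
  refine final h (fun z hz => ?_) (fun z hz => ?_)
  · have h1 := main hE1 hq _ L h rfl (by
      rw [Set.ncard_pos]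
      exact ⟨z, hz⟩)
    rw [heq] at h1
    exact lt_irrefl _ h1
  · have h1 := main hE1 hq _ L' h.symm rfl (by
      rw [Set.ncard_pos]
      exact ⟨z, hz⟩)
    rw [heq] at h1
    exact lt_irrefl _ h1

end Pool.Agent.X327.BS
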